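import Pool.Agent.Helper32.B4.St

/-! # B4, module AE: error recursion along a chain of Koebe steps -/

set_option autoImplicit false

open Metric Set Filter Topology MeasureTheory
open scoped ComplexConjugate Interval

namespace Pool.Agent.Helper65.B4

open Pool.Agent.Helper32.B4 Pool.Agent.Helper32.DX Pool.Agent.Helper64.C3

theorem c0_norm_le (θ : ℝ → ℝ) {a : ℝ} (h0 : 0 ≤ a) (h1 : a ≤ 1) : ‖c0 θ a‖ ≤ 2 := by
  unfold c0
  rw [norm_neg, norm_mul]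
  have h := intervalIntegral.norm_integral_le_of_norm_le_const (a := a) (b := 1) (f := ee θ)
    (C := 1) (fun x _ => (norm_ee θ x).le)
  rw [one_mul, abs_of_nonneg (by linarith)] at h
  have h2 : ‖(2 : ℂ)‖ = 2 := by norm_num
  rw [h2]
  linarith

/-- norm of a real multiple of a power of a unimodular number -/
theorem norm_real_pow {c : ℝ} (hc : 0 ≤ c) {χ : ℂ} (hχ : ‖χ‖ = 1) (k : ℕ) : ‖(c : ℂ) * χ ^ k‖ = c := by
  rw [norm_mul, norm_pow, hχ, one_pow, mul_one, Complex.norm_real, Real.norm_of_nonneg hc]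

/-- one step of the recursion -/
theorem step_bound {q u : ℝ} (hq : 1 / 2 ≤ q) (hq1 : q < 1) (hu0 : 0 < u) (hu1 : u ≤ 1) {χ : ℂ}
    (hχ : ‖χ‖ = 1) {A1 A2 A3 A1' A2' A3' C0 C1 C2 C0' C1' C2' : ℂ}
    (hA1 : A1' = A1 + (1 - q ^ 2) / q * (χ * u))
    (hA2 : A2' = A2 + (1 - q ^ 2) / q ^ 2 * (χ ^ 2 * u ^ 2))
    (hA3 : A3' = A3 + u ^ 2 * ((1 - q ^ 2) / q ^ 2 * (-(χ ^ 2 * A1))
      + (1 - q ^ 2) / q ^ 3 * (χ ^ 3 * u)))
    (hC0 : C0' = C0 - 2 * (-χ) * ((u : ℂ) - q * u))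
    (hC1 : C1' = C1 + (-χ) ^ 2 * ((u : ℂ) ^ 2 - (q * u) ^ 2))
    (hC2 : C2' = C2 + (-χ) ^ 2 * ((q * u : ℂ) ^ 2 * C0' - (u : ℂ) ^ 2 * C0))
    (hA : ‖A1‖ ≤ 3) :
    ‖A1' - C0'‖ ≤ ‖A1 - C0‖ + 2 * (1 - q) ^ 2 ∧
    ‖A2' - C1'‖ ≤ ‖A2 - C1‖ + 16 * (1 - q) ^ 2 ∧
    ‖A3' - C2'‖ ≤ ‖A3 - C2‖ + 2 * (u - q * u) * ‖A1 - C0‖ + 120 * (1 - q) ^ 2 := by
  have hq0 : 0 < q := by linarith
  have hqC : (q : ℂ) ≠ 0 := by exact_mod_cast hq0.ne'
  have hd : 0 < 1 - q := by linarith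
  have hqi : 1 / q ≤ 2 := by
    rw [div_le_iff₀ hq0]
    linarith
  have hqi0 : 0 ≤ 1 / q := by positivity
  refine ⟨?_, ?_, ?_⟩
  · have e1 : A1' - C0' = (A1 - C0) + ((u * (1 - q) ^ 2 * (1 / q) : ℝ) : ℂ) * χ ^ 1 := by
      rw [hA1, hC0]
      push_cast
      field_simp
      ring
    rw [e1]
    refine (norm_add_le _ _).trans ?_
    rw [norm_real_pow (by positivity) hχ]
    have h1 : u * (1 - q) ^ 2 * (1 / q) ≤ 1 * (1 - q) ^ 2 * 2 := by gcongr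
    linarith
  · have e1 : A2' - C1' = (A2 - C1) + ((u ^ 2 * (1 - q) ^ 2 * (1 + q) ^ 2 * (1 / q) ^ 2 : ℝ) : ℂ) * χ ^ 2 := by
      rw [hA2, hC1]
      push_cast
      field_simp
      ring
    rw [e1]
    refine (norm_add_le _ _).trans ?_
    rw [norm_real_pow (by positivity) hχ]
    have h1 : u ^ 2 * (1 - q) ^ 2 * (1 + q) ^ 2 * (1 / q) ^ 2 ≤ 1 ^ 2 * (1 - q) ^ 2 * (1 + 1) ^ 2 * 2 ^ 2 := by
      gcongr
    linarith
  · have e1 : A3' - C2' = (A3 - C2) - ((u ^ 2 * (1 - q ^ 2) : ℝ) : ℂ) * χ ^ 2 * (A1 - C0)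
        - ((u ^ 2 * (1 - q) ^ 2 * (1 + q) ^ 2 * (1 / q) ^ 2 : ℝ) : ℂ) * χ ^ 2 * A1
        + ((u ^ 3 * (1 - q) ^ 2 * ((1 + q + q ^ 2 + q ^ 3 + q ^ 4) + q * (1 + q + q ^ 2 + q ^ 3)) *
          (1 / q) ^ 3 : ℝ) : ℂ) * χ ^ 3 := by
      rw [hA3, hC2, hC0]
      push_cast
      field_simp
      ring
    rw [e1]
    have hq2 : 0 ≤ 1 - q ^ 2 := by nlinarith
    have n1 : ‖((u ^ 2 * (1 - q ^ 2) : ℝ) : ℂ) * χ ^ 2 * (A1 - C0)‖ ≤ 2 * (u - q * u) * ‖A1 - C0‖ := by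
      rw [norm_mul, norm_real_pow (by positivity) hχ]
      have h1 : u ^ 2 * (1 - q ^ 2) ≤ 2 * (u - q * u) := by
        have h2 : u ^ 2 ≤ u := by nlinarith
        have h3 : 1 - q ^ 2 ≤ 2 * (1 - q) := by nlinarith
        calc u ^ 2 * (1 - q ^ 2) ≤ u * (2 * (1 - q)) := mul_le_mul h2 h3 hq2 hu0.le
          _ = 2 * (u - q * u) := by ring
      exact mul_le_mul_of_nonneg_right h1 (norm_nonneg _)
    have n2 : ‖((u ^ 2 * (1 - q) ^ 2 * (1 + q) ^ 2 * (1 / q) ^ 2 : ℝ) : ℂ) * χ ^ 2 * A1‖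
        ≤ 48 * (1 - q) ^ 2 := by
      rw [norm_mul, norm_real_pow (by positivity) hχ]
      have h1 : u ^ 2 * (1 - q) ^ 2 * (1 + q) ^ 2 * (1 / q) ^ 2
          ≤ 1 ^ 2 * (1 - q) ^ 2 * (1 + 1) ^ 2 * 2 ^ 2 := by gcongr
      calc u ^ 2 * (1 - q) ^ 2 * (1 + q) ^ 2 * (1 / q) ^ 2 * ‖A1‖
          ≤ (1 ^ 2 * (1 - q) ^ 2 * (1 + 1) ^ 2 * 2 ^ 2) * 3 :=
            mul_le_mul h1 hA (norm_nonneg _) (by positivity)
        _ = 48 * (1 - q) ^ 2 := by ring
    have n3 : ‖((u ^ 3 * (1 - q) ^ 2 * ((1 + q + q ^ 2 + q ^ 3 + q ^ 4) + q * (1 + q + q ^ 2 + q ^ 3)) *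
          (1 / q) ^ 3 : ℝ) : ℂ) * χ ^ 3‖ ≤ 72 * (1 - q) ^ 2 := by
      rw [norm_real_pow (by positivity) hχ]
      calc u ^ 3 * (1 - q) ^ 2 * ((1 + q + q ^ 2 + q ^ 3 + q ^ 4) + q * (1 + q + q ^ 2 + q ^ 3)) *
          (1 / q) ^ 3
          ≤ 1 ^ 3 * (1 - q) ^ 2 * ((1 + 1 + 1 ^ 2 + 1 ^ 3 + 1 ^ 4) + 1 * (1 + 1 + 1 ^ 2 + 1 ^ 3)) *
          2 ^ 3 := by gcongr
        _ = 72 * (1 - q) ^ 2 := by ring
    refine (norm_add_le _ _).trans ?_
    have t1 := norm_sub_le ((A3 - C2) - ((u ^ 2 * (1 - q ^ 2) : ℝ) : ℂ) * χ ^ 2 * (A1 - C0))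
      (((u ^ 2 * (1 - q) ^ 2 * (1 + q) ^ 2 * (1 / q) ^ 2 : ℝ) : ℂ) * χ ^ 2 * A1)
    have t2 := norm_sub_le (A3 - C2) (((u ^ 2 * (1 - q ^ 2) : ℝ) : ℂ) * χ ^ 2 * (A1 - C0))
    linarith

theorem hAE : StEV → StAE := by
  intro hEV q p₀ η m H χ hq hq1 hη0 hη hp hp1 hch hsmall
  have hq0 : 0 < q := by linarith
  have hp0 : 0 < p₀ := by linarith
  set a : ℕ → ℝ := fun i => q ^ i * p₀ with ha
  set t : ℕ → ℝ := fun i => Complex.arg (-χ i) with ht
  refine ⟨t, ?_⟩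
  set θ : ℝ → ℝ := stepf a t m with hθ
  have hθm : Measurable θ := stepf_meas a t m
  have ha0 : a 0 = p₀ := by simp [ha]
  have hapos : ∀ i, 0 < a i := fun i => by simp only [ha]; positivity
  have hasucc : ∀ i, a (i + 1) = q * a i := fun i => by simp only [ha]; ring
  have hamono : ∀ i < m, a (i + 1) ≤ a i := fun i _ => by
    rw [hasucc]
    nlinarith [hapos i]
  have hale : ∀ i, a i ≤ p₀ := by
    intro i
    simp only [ha]
    have : q ^ i ≤ 1 := pow_le_one₀ hq0.le hq1.le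
    nlinarith
  have hexp : ∀ i, Complex.exp ((t i : ℂ) * Complex.I) = -χ i := by
    intro i
    have h1 := Complex.norm_mul_exp_arg_mul_I (-χ i)
    rw [norm_neg, hch.chi i] at h1
    simpa [ht] using h1
  set E : ℝ := (1 - q) ^ 2 with hE
  have hE0 : 0 ≤ E := by positivity
  set M : ℝ := 602 * η + 2 * m * E with hM
  have hM0 : 0 ≤ M := by positivity
  have hM1 : M ≤ 1 := by
    rw [hM]
    have : 0 ≤ (m : ℝ) * E := by positivity
    linarith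
  have key : ∀ i : ℕ, i ≤ m →
      ‖ac 1 (H i) - c0 θ (a i)‖ ≤ 602 * η + 2 * i * E ∧
      ‖ac 2 (H i) - c1 θ (a i)‖ ≤ 602 * η + 16 * i * E ∧
      ‖ac 3 (H i) - c2 θ (a i)‖ ≤ 602 * η + 2 * (p₀ - a i) * M + 120 * i * E := by
    intro i
    induction i with
    | zero =>
      intro _
      have hd := hch.der 0 (Nat.zero_le m)
      obtain ⟨s1, s2, s3, -⟩ := ac_small (hch.self 0 (Nat.zero_le m)) (hch.inj 0 (Nat.zero_le m))
        (p := p₀) (by rw [hd]; simp) hη hp hp1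
      have hz : ∀ u ∈ Ioc p₀ 1, θ u = 0 := by
        intro u hu
        exact stepf_of_gt hamono (by rw [ha0]; exact hu.1)
      obtain ⟨v1, v2, v3⟩ := hEV θ hθm p₀ 1 0 hp0.le hp1 le_rfl hz
      have w1 : c0 θ 1 = 0 := by simp [c0]
      have w2 : c1 θ 1 = 0 := by simp [c1]
      have w3 : c2 θ 1 = 0 := by simp [c2]
      have he : Complex.exp (((0 : ℝ) : ℂ) * Complex.I) = 1 := by simp
      rw [w1, he] at v1
      rw [w2, he] at v2
      rw [w1, w3, he] at v3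
      have x1 : ‖c0 θ p₀‖ ≤ 2 * η := by
        have : c0 θ p₀ = ((-(2 * (1 - p₀)) : ℝ) : ℂ) := by
          rw [v1]
          push_cast
          ring
        rw [this, Complex.norm_real, Real.norm_eq_abs, abs_neg, abs_of_nonneg (by linarith)]
        linarith
      have x2 : ‖c1 θ p₀‖ ≤ 2 * η := by
        have : c1 θ p₀ = (((1 - p₀) * (1 + p₀) : ℝ) : ℂ) := by
          rw [v2]
          push_cast
          ring
        rw [this, Complex.norm_real, Real.norm_eq_abs, abs_of_nonneg (by nlinarith)]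
        nlinarith
      have x3 : ‖c2 θ p₀‖ ≤ 2 * η := by
        have : c2 θ p₀ = ((p₀ ^ 2 : ℝ) : ℂ) * c0 θ p₀ := by
          rw [v3]
          push_cast
          ring
        rw [this, norm_mul, Complex.norm_real, Real.norm_eq_abs, abs_of_nonneg (by positivity)]
        have h1 : p₀ ^ 2 ≤ 1 := by nlinarith
        calc p₀ ^ 2 * ‖c0 θ p₀‖ ≤ 1 * (2 * η) := mul_le_mul h1 x1 (norm_nonneg _) zero_le_one
          _ = 2 * η := one_mul _
      rw [ha0]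
      have y1 := norm_sub_le (ac 1 (H 0)) (c0 θ p₀)
      have y2 := norm_sub_le (ac 2 (H 0)) (c1 θ p₀)
      have y3 := norm_sub_le (ac 3 (H 0)) (c2 θ p₀)
      simp only [Nat.cast_zero, mul_zero, zero_mul, add_zero, sub_self]
      exact ⟨by linarith, by linarith, by linarith⟩
    | succ i ih =>
      intro hi
      obtain ⟨i1, i2, i3⟩ := ih (by omega)
      have hile : i ≤ m := by omega
      have hilt : i < m := by omega
      have hd := hch.der i hile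
      obtain ⟨-, r1, r2, r3, -⟩ := ac_step hq0 hq1.le (hch.chi i) (hch.self i hile) (hch.inj i hile)
        (hapos i).ne' hd (hch.self (i + 1) hi) (hch.inj (i + 1) hi) (hch.step i hilt)
      have hz : ∀ u ∈ Ioc (a (i + 1)) (a i), θ u = t i := by
        intro u hu
        exact stepf_of_mem hamono hilt hu
      have hai1 : a i ≤ 1 := (hale i).trans hp1
      obtain ⟨v1, v2, v3⟩ := hEV θ hθm (a (i + 1)) (a i) (t i) (hapos (i + 1)).le (hamono i hilt)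
        hai1 hz
      rw [hexp i] at v1 v2 v3
      have hcast : ((a (i + 1) : ℝ) : ℂ) = q * (a i : ℂ) := by
        rw [hasucc]
        push_cast
        ring
      rw [hcast] at v1 v2 v3
      have hiE : (i : ℝ) * E ≤ m * E := by
        have : (i : ℝ) ≤ m := by exact_mod_cast hile
        exact mul_le_mul_of_nonneg_right this hE0
      have hd1 : ‖ac 1 (H i) - c0 θ (a i)‖ ≤ M := by
        rw [hM]
        linarith
      have hA : ‖ac 1 (H i)‖ ≤ 3 := by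
        have h1 := c0_norm_le θ (hapos i).le hai1
        have h2 : ac 1 (H i) = (ac 1 (H i) - c0 θ (a i)) + c0 θ (a i) := by ring
        rw [h2]
        refine (norm_add_le _ _).trans ?_
        linarith
      obtain ⟨b1, b2, b3⟩ := step_bound hq hq1 (hapos i) hai1 (hch.chi i) r1 r2 r3 v1 v2 v3 hA
      rw [← hE] at b1 b2 b3
      have hsub : 0 ≤ 2 * (a i - q * a i) := by nlinarith [hapos i]
      have hmul : 2 * (a i - q * a i) * ‖ac 1 (H i) - c0 θ (a i)‖ ≤ 2 * (a i - q * a i) * M :=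
        mul_le_mul_of_nonneg_left hd1 hsub
      push_cast
      rw [hasucc] at b1 b2 b3 ⊢
      refine ⟨by linarith, by linarith, ?_⟩
      have : 2 * (p₀ - q * a i) * M = 2 * (p₀ - a i) * M + 2 * (a i - q * a i) * M := by ring
      rw [this]
      linarith
  obtain ⟨k1, k2, k3⟩ := key m le_rfl
  have hmE : 0 ≤ (m : ℝ) * E := by positivity
  refine ⟨by linarith, by linarith, ?_⟩
  have h1 : 2 * (p₀ - a m) * M ≤ 2 * M := by
    have : p₀ - a m ≤ 1 := by linarith [hapos m]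
    nlinarith
  have h2 : 2 * M = 1204 * η + 4 * (m * E) := by rw [hM]; ring
  linarith

end Pool.Agent.Helper65.B4
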